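import Pool.Agent.Q17.DC.Stm3
import Pool.Agent.Q222.TC.TBC

/-!
Job UNQ of project DC (helper17): the blocks of `H` and the blocks of `G`.
-/

set_option autoImplicit false
set_option linter.unusedSectionVars false

open scoped BigOperators Classical
open Pool.Agent.H254R3.IN Pool.Agent.Y63.KR Pool.Agent.Q17.TC Pool.Agent.Q239.TC
  Pool.Agent.Q222.TC

noncomputable section

namespace Pool.Agent.Q66.DC

open Pool.Agent.Q17.DC

variable {G : Type} [Group G] [Fintype G] {O : ValuationSubring ℂ} {p : ℕ}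

/-- the induced sum -/
def sm {L : Subgroup G} (θ : L → ℂ) (x : G) : ℂ := ∑ᶠ y : {y : L // IsConj x (y : G)}, θ y / θ 1

/-- `β` induces `B` -/
def Ind (O : ValuationSubring ℂ) {L : Subgroup G} (B : Set (G → ℂ)) (β : Set (L → ℂ)) : Prop :=
  ∀ χ ∈ B, ∀ θ ∈ β, ∀ x : G,
    omega χ x - ∑ᶠ y : {y : L // IsConj x (y : G)}, θ y / θ 1 ∈ O.nonunits

lemma sm_mem {L : Subgroup G} {θ : L → ℂ} (hθ : IsIrr θ) (x : G) : sm θ x ∈ O :=
  (ind_classes hθ x).1

lemma ind_red {L : Subgroup G} {χ : G → ℂ} {θ : L → ℂ} (hχ : IsIrr χ) (hθ : IsIrr θ) (x : G) :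
    omega χ x - ∑ᶠ y : {y : L // IsConj x (y : G)}, θ y / θ 1 ∈ O.nonunits ↔
      red O (omega χ x) = red O (sm θ x) :=
  (red_eq_iff (hχ.omega_mem O x) (sm_mem hθ x)).symm

lemma sm_block {L : Subgroup G} {β : Set (L → ℂ)} (hβ : IsBlock O β) {θ θ' : L → ℂ}
    (hθ : θ ∈ β) (hθ' : θ' ∈ β) (x : G) : red O (sm θ x) = red O (sm θ' x) := by
  unfold sm
  rw [(ind_classes (O := O) (hβ.irr θ hθ) x).2, (ind_classes (O := O) (hβ.irr θ' hθ') x).2]
  exact Finset.sum_congr rfl fun L _ => hβ.red_eq hθ hθ' _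

/-- induction in stages -/
lemma stage {H D : Subgroup G} (hD : D ≤ H) (hN : NN D ≤ H) {ψ : H → ℂ} {θ₀ : NN D → ℂ}
    (hψ : IsIrr ψ) (hθ₀ : IsIrr θ₀)
    (h : ∀ z : H, red O (omega ψ z) =
      red O (sm (fun x : NN (D.subgroupOf H) => θ₀ (eN hD hN x)) z)) (x : G) :
    red O (sm ψ x) = red O (sm θ₀ x) := by
  set θ : NN (D.subgroupOf H) → ℂ := fun x => θ₀ (eN hD hN x) with hθ
  have hθi' : IsIrr θ := irr_comp (eN hD hN) hθ₀
  have e3 := two_step hψ hθi' (fun z => (ind_red hψ hθi' z).2 (h z)) x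
  have e5 := sum_pred (fun y : NN (D.subgroupOf H) => IsConj x ((y : H) : G))
    (fun y z hyz => ⟨fun h => h.trans (conj_coe' (conj_coe' hyz)),
      fun h => h.trans (conj_coe' (conj_coe' hyz)).symm⟩) hθi'
  unfold sm
  rw [e3, ← red_sum _ _ (fun L _ => hθi'.omega_mem O _), ← e5]
  congr 1
  rw [ind_finsum]
  refine Finset.sum_equiv (eN hD hN).toEquiv ?_ ?_
  · intro y
    simp only [Finset.mem_filter, Finset.mem_univ, true_and]
    exact Iff.rfl
  · intro y _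
    rfl

lemma blk_eq {b b' : Set (G → ℂ)} (hb : IsBlock O b) (hb' : IsBlock O b') {χ χ' : G → ℂ}
    (hχ : χ ∈ b) (hχ' : χ' ∈ b') (h : ∀ x, red O (omega χ x) = red O (omega χ' x)) : b = b' := by
  apply Set.Subset.antisymm
  · intro ψ hψ
    by_contra hn
    obtain ⟨x, hx⟩ := hb'.exists_ne hχ' (hb.irr ψ hψ) hn
    apply hx
    rw [← h x, hb.red_eq hχ hψ x]
  · intro ψ hψ
    by_contra hn
    obtain ⟨x, hx⟩ := hb.exists_ne hχ (hb'.irr ψ hψ) hn
    apply hx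
    rw [h x, hb'.red_eq hχ' hψ x]

/-- Brauer correspondents of a block of `H` are Brauer correspondents of the induced block -/
theorem up {H D : Subgroup G} (hD : D ≤ H) (hN : NN D ≤ H) {B : Set (G → ℂ)} {b : Set (H → ℂ)}
    {β : Set (NN (D.subgroupOf H) → ℂ)} (hB : IsBlock O B) (hb : IsBlock O b) (hBb : Ind O B b)
    (h : IsBrauerCorrespondent p O (D.subgroupOf H) b β) :
    IsBrauerCorrespondent p O D B (tb (eN hD hN).symm β) := by
  refine ⟨tb_block _ h.1, ?_, ?_⟩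
  · have h1 := tb_defect (eN hD hN).symm h.2.1
    have e1 : ((D.subgroupOf H).subgroupOf (NN (D.subgroupOf H))).comap
        (eN hD hN).symm.toMonoidHom = D.subgroupOf (NN D) := by
      ext x
      exact Iff.rfl
    rwa [e1] at h1
  · rintro χ hχ θ ⟨θ', hθ', rfl⟩ x
    obtain ⟨ψ, hψ⟩ := hb.nonempty
    have hχi := hB.irr χ hχ
    have hψi := hb.irr ψ hψ
    have hθi' := h.1.irr θ' hθ'
    have hθi : IsIrr (fun x => θ' ((eN hD hN).symm x)) := irr_comp (eN hD hN).symm hθi'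
    rw [ind_red hχi hθi]
    rw [(ind_red hχi hψi x).1 (hBb χ hχ ψ hψ x)]
    apply stage hD hN hψi hθi
    intro z
    exact (ind_red hψi hθi' z).1 (h.2.2 ψ hψ θ' hθ' z)

/-- a Brauer correspondent of `B` is a Brauer correspondent of a block of `H` which induces `B` -/
theorem down (hEXI : S_EXI) [Fact p.Prime] (hpO : (p : ℂ) ∈ O.nonunits) {H D : Subgroup G}
    (hDp : IsPGroup p D) (hD : D ≤ H)
    (hN : NN D ≤ H) {B : Set (G → ℂ)} (hB : IsBlock O B) {β₀ : Set (NN D → ℂ)}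
    (h₀ : IsBrauerCorrespondent p O D B β₀) :
    ∃ b : Set (H → ℂ), IsBlock O b ∧
      IsBrauerCorrespondent p O (D.subgroupOf H) b (tb (eN hD hN) β₀) ∧ Ind O B b := by
  obtain ⟨θ₀, hθ₀⟩ := h₀.1.nonempty
  have hθi := h₀.1.irr θ₀ hθ₀
  obtain ⟨b, hb, hbe⟩ := hEXI G p O hpO H (NN D) D hD hDp
    (fun x => ⟨fun hx => ⟨hN hx, hx⟩, fun hx => hx.2⟩) θ₀ hθi
  have hblk := tb_block (eN hD hN) h₀.1
  have hmem : (fun x => θ₀ (eN hD hN x)) ∈ tb (eN hD hN) β₀ := ⟨θ₀, hθ₀, rfl⟩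
  have hθi' := hblk.irr _ hmem
  have hkey : ∀ ψ ∈ b, ∀ z : H, red O (omega ψ z) =
      red O (sm (fun x : NN (D.subgroupOf H) => θ₀ (eN hD hN x)) z) := by
    intro ψ hψ z
    rw [← ind_red (hb.irr ψ hψ) hθi' z]
    have h1 := hbe ψ hψ z
    have h2 : indc H (NN D) θ₀ (z : G) = ∑ᶠ y : {y : NN (D.subgroupOf H) // IsConj z (y : H)},
        (fun x : NN (D.subgroupOf H) => θ₀ (eN hD hN x)) y /
          (fun x : NN (D.subgroupOf H) => θ₀ (eN hD hN x)) 1 := by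
      unfold indc
      let E : {y : NN (D.subgroupOf H) // IsConj z (y : H)} ≃
          {y : NN D // ∃ g ∈ H, g * (z : G) * g⁻¹ = y} :=
        (eN hD hN).toEquiv.subtypeEquiv (fun y => by
          rw [isConj_iff]
          constructor
          · rintro ⟨c, hc⟩
            exact ⟨c, c.2, congrArg Subtype.val hc⟩
          · rintro ⟨g, hg, hc⟩
            exact ⟨⟨g, hg⟩, Subtype.ext hc⟩)
      rw [← finsum_comp_equiv E]
      apply finsum_congr
      intro y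
      simp only [map_one]
      rfl
    rwa [h2] at h1
  refine ⟨b, hb, ⟨hblk, ?_, ?_⟩, ?_⟩
  · have h1 := tb_defect (eN hD hN) h₀.2.1
    have e1 : (D.subgroupOf (NN D)).comap (eN hD hN).toMonoidHom =
        (D.subgroupOf H).subgroupOf (NN (D.subgroupOf H)) := by
      ext x
      exact Iff.rfl
    rwa [e1] at h1
  · intro ψ hψ θ hθ z
    rw [ind_red (hb.irr ψ hψ) (hblk.irr θ hθ) z, hkey ψ hψ z]
    exact sm_block hblk hmem hθ z
  · intro χ hχ ψ hψ x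
    rw [ind_red (hB.irr χ hχ) (hb.irr ψ hψ) x, stage hD hN (hb.irr ψ hψ) hθi (hkey ψ hψ) x]
    exact (ind_red (hB.irr χ hχ) hθi x).1 (h₀.2.2 χ hχ θ₀ hθ₀ x)

lemma defect_comm {B : Set (G → ℂ)} {D : Subgroup G} (h : IsDefectGroup p O B D) :
    ∃ x, (∀ d ∈ D, Commute d x) ∧ blockCoeff B x ∉ O.nonunits := by
  obtain ⟨x, ⟨P, hP⟩, -, h2⟩ := h
  refine ⟨x, ?_, h2⟩
  intro d hd
  rw [hP] at hd
  obtain ⟨c, -, rfl⟩ := hd
  exact Subgroup.mem_centralizer_singleton_iff.mp c.2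

/-- defect groups are conjugate -/
theorem conj_def (hMMX : S_MMX) [Fact p.Prime] (hpO : (p : ℂ) ∈ O.nonunits) {B : Set (G → ℂ)}
    (hB : IsBlock O B)
    {D D' : Subgroup G} (h : IsDefectGroup p O B D) (h' : IsDefectGroup p O B D') :
    ∃ g : G, ∀ x, x ∈ D ↔ g * x * g⁻¹ ∈ D' := by
  obtain ⟨x, hx1, hx2⟩ := defect_comm h
  obtain ⟨x', hx1', hx2'⟩ := defect_comm h'
  obtain ⟨g, hg⟩ := ((hMMX G p O hpO B hB).2 D' h').1 x hx2 D (defect_pgroup h) hx1
  obtain ⟨g', hg'⟩ := ((hMMX G p O hpO B hB).2 D h).1 x' hx2' D' (defect_pgroup h') hx1'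
  let f : D → D' := fun r => ⟨g * r * g⁻¹, hg r r.2⟩
  let f' : D' → D := fun r => ⟨g' * r * g'⁻¹, hg' r r.2⟩
  have hf : Function.Injective f := by
    intro a b hab
    have h1 : g * (a : G) * g⁻¹ = g * b * g⁻¹ := congrArg Subtype.val hab
    exact Subtype.ext (mul_left_cancel (mul_right_cancel h1))
  have hf' : Function.Injective f' := by
    intro a b hab
    have h1 : g' * (a : G) * g'⁻¹ = g' * b * g'⁻¹ := congrArg Subtype.val hab
    exact Subtype.ext (mul_left_cancel (mul_right_cancel h1))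
  have hcard : Nat.card D = Nat.card D' := le_antisymm
    (Nat.card_le_card_of_injective f hf) (Nat.card_le_card_of_injective f' hf')
  have hbij : Function.Bijective f := (Nat.bijective_iff_injective_and_card f).2 ⟨hf, hcard⟩
  refine ⟨g, fun x => ⟨fun hx => hg x hx, fun hx => ?_⟩⟩
  obtain ⟨d, hd⟩ := hbij.2 ⟨_, hx⟩
  have h1 : g * (d : G) * g⁻¹ = g * x * g⁻¹ := congrArg Subtype.val hd
  have h2 : (d : G) = x := mul_left_cancel (mul_right_cancel h1)
  rw [← h2]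
  exact d.2

/-- conjugates of defect groups are defect groups -/
theorem defect_conj {B : Set (G → ℂ)} (hB : IsBlock O B) {D D' : Subgroup G}
    (h : IsDefectGroup p O B D') (g : G) (hg : ∀ x, x ∈ D ↔ g * x * g⁻¹ ∈ D') :
    IsDefectGroup p O B D := by
  have h1 := tb_defect (MulAut.conj g) h
  have e1 : tb (MulAut.conj g) B = B := by
    ext θ
    constructor
    · rintro ⟨θ₀, h2, rfl⟩
      have h3 : (fun x => θ₀ (MulAut.conj g x)) = θ₀ := by
        funext x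
        exact (hB.irr θ₀ h2).conj x g
      rwa [h3]
    · intro h2
      refine ⟨θ, h2, ?_⟩
      funext x
      exact ((hB.irr θ h2).conj x g).symm
  have e2 : D'.comap (MulAut.conj g).toMonoidHom = D := by
    ext x
    exact (hg x).symm
  rwa [e1, e2] at h1

theorem t_UNQ (hTI : S_TI) (hMMX : S_MMX) (hFMT : S_FMT) (hEXI : S_EXI) (_ : S_TRS) : S_UNQ := by
  intro G _ _ p _ O hpO N _ y H P hTD B hB
  have hNN : ∀ D : Subgroup G, (∃ z ∈ D, z ∈ KK N y ∧ z ∉ N) → D ≤ H → NN D ≤ H := by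
    rintro D ⟨z, hz, hzK, hzN⟩ hDL g hg
    have h1 := (Subgroup.mem_normalizer_iff.mp ((NN D).inv_mem hg) z).mp hz
    rw [inv_inv] at h1
    exact (hTI G p N y H P hTD).1 g z (hDL hz) hzK hzN (hDL h1)
  have c3 : ∀ (b : Set (H → ℂ)), IsBlock O b → Ind O B b → ∀ D : Subgroup G,
      (∀ hD : D ≤ H, ∀ hN : NN D ≤ H, IsDefectGroup p O b (D.subgroupOf H) →
      ∃ β, IsBrauerCorrespondent p O (D.subgroupOf H) b β ∧
        IsBrauerCorrespondent p O D B (tb (eN hD hN).symm β)) := by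
    intro b hb hBb D hD hN hdef
    obtain ⟨β, hβ⟩ := (hFMT H p O hpO (D.subgroupOf H) (defect_pgroup hdef) b hb).1 hdef
    exact ⟨β, hβ, up hD hN hB hb hBb hβ⟩
  have c3' : ∀ (b : Set (H → ℂ)), IsBlock O b → Ind O B b → ∀ D : Subgroup G,
      ∀ hD : D ≤ H, ∀ hN : NN D ≤ H, IsDefectGroup p O b (D.subgroupOf H) →
      IsDefectGroup p O B D := by
    intro b hb hBb D hD hN hdef
    obtain ⟨β, -, hβ⟩ := c3 b hb hBb D hD hN hdef
    have hDp : IsPGroup p D :=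
      (defect_pgroup hdef).of_equiv (Subgroup.subgroupOfEquivOfLe hD)
    exact (hFMT G p O hpO D hDp B hB).2.1 _ hβ
  have hmap : ∀ D : Subgroup H, (D.map H.subtype).subgroupOf H = D := fun D =>
    Subgroup.comap_map_eq_self_of_injective H.subtype_injective D
  have hle : ∀ D : Subgroup H, D.map H.subtype ≤ H := by
    rintro D x ⟨d, -, rfl⟩
    exact d.2
  have hz' : ∀ D : Subgroup H, (∃ z ∈ D, (z : G) ∈ KK N y ∧ (z : G) ∉ N) →
      ∃ z ∈ D.map H.subtype, z ∈ KK N y ∧ z ∉ N := by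
    rintro D ⟨z, h1, h2, h3⟩
    exact ⟨z, ⟨z, h1, rfl⟩, h2, h3⟩
  refine ⟨?_, ?_, ?_⟩
  · intro D hDH hdef hz
    have hN := hNN D hz hDH
    have hDp := defect_pgroup hdef
    obtain ⟨β₀, hβ₀⟩ := (hFMT G p O hpO D hDp B hB).1 hdef
    obtain ⟨b, hb, hbβ, hBb⟩ := down hEXI hpO hDp hDH hN hB hβ₀
    refine ⟨⟨b, hb, hBb⟩, ?_⟩
    exact (hFMT H p O hpO (D.subgroupOf H) (hDp.of_equiv
      (Subgroup.subgroupOfEquivOfLe hDH).symm) b hb).2.1 _ hbβ
  · rintro ⟨b, hb, hBb⟩ ⟨b', hb', hBb'⟩ D D' hdef hdef' hzD hzD'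
    simp only at hdef hdef'
    have hz1 := hz' D hzD
    have hz2 := hz' D' hzD'
    obtain ⟨D1, hD1⟩ : ∃ D1 : Subgroup G, D1 = D.map H.subtype := ⟨_, rfl⟩
    obtain ⟨D2, hD2⟩ : ∃ D2 : Subgroup G, D2 = D'.map H.subtype := ⟨_, rfl⟩
    have hD1H : D1 ≤ H := hD1 ▸ hle D
    have hD2H : D2 ≤ H := hD2 ▸ hle D'
    rw [← hmap D, ← hD1] at hdef
    rw [← hmap D', ← hD2] at hdef'
    rw [← hD1] at hz1
    rw [← hD2] at hz2
    have hN1 := hNN D1 hz1 hD1H
    have hN2 := hNN D2 hz2 hD2H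
    have d1 := c3' b hb hBb D1 hD1H hN1 hdef
    have d2 := c3' b' hb' hBb' D2 hD2H hN2 hdef'
    obtain ⟨g, hg⟩ := conj_def hMMX hpO hB d1 d2
    have hgH : g ∈ H := by
      obtain ⟨z, hz, hzK, hzN⟩ := hz1
      have h1 : g⁻¹ ∈ H := by
        apply (hTI G p N y H P hTD).1 g⁻¹ z (hD1H hz) hzK hzN
        rw [inv_inv]
        exact hD2H ((hg z).1 hz)
      have h2 := H.inv_mem h1
      rwa [inv_inv] at h2
    have hdef1 : IsDefectGroup p O b' (D1.subgroupOf H) := by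
      apply defect_conj hb' hdef' ⟨g, hgH⟩
      intro x
      exact hg x
    obtain ⟨β, hβ, hβG⟩ := c3 b hb hBb D1 hD1H hN1 hdef
    obtain ⟨β', hβ', hβG'⟩ := c3 b' hb' hBb' D1 hD1H hN1 hdef1
    have hD1p : IsPGroup p D1 := defect_pgroup d1
    have h3 := (hFMT G p O hpO D1 hD1p B hB).2.2 _ _ hβG hβG'
    obtain ⟨θ, hθ⟩ := hβ.1.nonempty
    have h4 : (fun x => θ ((eN hD1H hN1).symm x)) ∈ tb (eN hD1H hN1).symm β' := by
      rw [← h3]
      exact ⟨θ, hθ, rfl⟩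
    obtain ⟨θ', hθ', h5⟩ := h4
    have h6 : θ = θ' := by
      funext x
      exact congrFun h5 (eN hD1H hN1 x)
    rw [← h6] at hθ'
    obtain ⟨ψ, hψ⟩ := hb.nonempty
    obtain ⟨ψ', hψ'⟩ := hb'.nonempty
    have hbb : b = b' := by
      apply blk_eq hb hb' hψ hψ'
      intro x
      rw [(ind_red (hb.irr ψ hψ) (hβ.1.irr θ hθ) x).1 (hβ.2.2 ψ hψ θ hθ x),
        (ind_red (hb'.irr ψ' hψ') (hβ.1.irr θ hθ) x).1 (hβ'.2.2 ψ' hψ' θ hθ' x)]
    subst hbb
    rfl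
  · rintro ⟨b, hb, hBb⟩ D hdef hz
    simp only at hdef
    have hz1 := hz' D hz
    have hN := hNN _ hz1 (hle D)
    have h1 : IsDefectGroup p O b ((D.map H.subtype).subgroupOf H) := by rw [hmap D]; exact hdef
    exact c3' b hb hBb _ (hle D) hN h1

end Pool.Agent.Q66.DC
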